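import Pool.Agent.H804.Final
import Pool.Agent.H804.Maximal

set_option autoImplicit false

/-!
# A GHMC anti-de Sitter manifold of dimension 4 without K-time on the past of its convex core
-/

namespace Pool.Agent.Results.MP_429f6c_gt.NoKTime

open Pool.Agent.H804 Pool.Agent.H804.KTime

/-- Negative answer to Q1, with `n = 3`: there is a GHMC AdS manifold `M` of dimension `3 + 1` such that
the past of its convex core `C` carries no `K`-time. -/
theorem result : ∃ M : Spacetime 3, M.IsGHMC ∧ ∃ C, M.IsConvexCore C ∧ ¬ ∃ t, M.IsKTime C t :=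
  ⟨M0, M0_GHMC, CC, CC_core, no_KTime⟩

end Pool.Agent.Results.MP_429f6c_gt.NoKTime
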